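import Pool.Agent.Helper14.WK.StA

/-!
# Project WK for MP_3c9520_nt, module KP1: homogeneity of the potentials
-/

set_option autoImplicit false

open UpperHalfPlane CongruenceSubgroup
open scoped MatrixGroups

namespace Pool.Agent.Helper69.WK

open Pool.Agent.Helper14.WK
open Pool.Agent.Helper14.CV (G0 Homog EqC act)
open Pool.Agent.Helper28.WK (cp)

private theorem sqPos {p q : ℤ} (h : p ≠ 0 ∨ q ≠ 0) : 0 < p * p - (-q) * q := by
  rcases h with h | h
  · have : 0 < p * p := mul_self_pos.2 h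
    nlinarith [mul_self_nonneg q]
  · have : 0 < q * q := mul_self_pos.2 h
    nlinarith [mul_self_nonneg p]

private theorem pot0 {N A : ℕ} {k : ℤ} {f : CuspForm (G0 N) k} {I : ℤ → ℤ → ℕ → ℂ}
    (hI : IsPotK A f I) (a b c d : ℤ) (h : 0 < a * d - b * c) {j : ℕ} (hj : j ≤ 2 * A) :
    Filter.Tendsto (fun y : ℝ => EK f j ((a * (y * Complex.I) + b) / (c * (y * Complex.I) + d)))
      Filter.atTop (nhds (I a c j)) := by
  have := hI a b c d h j hj 0
  simpa only [Complex.ofReal_zero, zero_add] using this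

private theorem hpos {N A : ℕ} {k : ℤ} {f : CuspForm (G0 N) k} {I : ℤ → ℤ → ℕ → ℂ}
    (hI : IsPotK A f I) {r p q : ℤ} (hr : 0 < r) (h : p ≠ 0 ∨ q ≠ 0) {j : ℕ} (hj : j ≤ 2 * A) :
    I (r * p) (r * q) j = I p q j := by
  have h1 := sqPos h
  have h2 : 0 < (r * p) * p - (-q) * (r * q) := by
    have : (r * p) * p - (-q) * (r * q) = r * (p * p - (-q) * q) := by ring
    rw [this]
    exact mul_pos hr h1
  have t1 := pot0 hI (r * p) (-q) (r * q) p h2 hj
  have t2 := pot0 hI p (-q) q p h1 hj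
  have hr' : (0 : ℝ) < r := by exact_mod_cast hr
  have t3 := t2.comp (Filter.tendsto_id.const_mul_atTop hr')
  refine tendsto_nhds_unique t1 (t3.congr fun y => ?_)
  simp only [Function.comp_apply, id_eq]
  refine congrArg (EK f j) ?_
  push_cast
  congr 1 <;> ring

private theorem hneg {N A : ℕ} {k : ℤ} {f : CuspForm (G0 N) k} {I : ℤ → ℤ → ℕ → ℂ}
    (hI : IsPotK A f I) {p q : ℤ} (h : p ≠ 0 ∨ q ≠ 0) {j : ℕ} (hj : j ≤ 2 * A) :
    I (-p) (-q) j = I p q j := by
  have h1 := sqPos h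
  have h2 : 0 < (-p) * (-p) - q * (-q) := by
    have : (-p) * (-p) - q * (-q) = p * p - (-q) * q := by ring
    rw [this]
    exact h1
  have t1 := pot0 hI (-p) q (-q) (-p) h2 hj
  have t2 := pot0 hI p (-q) q p h1 hj
  refine tendsto_nhds_unique t1 (t2.congr fun y => ?_)
  refine congrArg (EK f j) ?_
  push_cast
  rw [← neg_div_neg_eq]
  congr 1 <;> ring

/-- module KP1 of project WK -/
theorem hKP1 : SKP1 := by
  intro N _ A f I hI j hj r p q hr h
  show I (r * p) (r * q) j = I p q j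
  rcases lt_or_gt_of_ne hr with h1 | h1
  · have h2 : 0 < -r := by omega
    have h3 : (-r) * p ≠ 0 ∨ (-r) * q ≠ 0 := by
      rcases h with h | h
      · exact Or.inl (mul_ne_zero h2.ne' h)
      · exact Or.inr (mul_ne_zero h2.ne' h)
    have h4 := hneg hI h3 hj
    rw [hpos hI h2 h hj] at h4
    rw [← h4, show -(-r * p) = r * p by ring, show -(-r * q) = r * q by ring]
  · exact hpos hI h1 h hj

end Pool.Agent.Helper69.WK
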