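import Pool.Agent.Helper28.WK.StA

/-!
# Project WK for MP_3c9520_nt, module Bse: the base case of level 4
-/

set_option autoImplicit false

namespace Pool.Agent.Helper69.WK

open Pool.Agent.Helper14.CV Pool.Agent.Helper28.WK

/-- Descent: a homogeneous potential invariant under the two parabolic generators and with equal
values at the three cusps is constant. -/
private theorem descent (K : ℤ → ℤ → ℂ) (κ : ℂ) (hH : Homog K)
    (h1 : ∀ p q : ℤ, (p ≠ 0 ∨ q ≠ 0) → K (p + q) q = K p q)
    (h2 : ∀ p q : ℤ, (p ≠ 0 ∨ q ≠ 0) → K p (4 * p + q) = K p q)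
    (k1 : K 1 0 = κ) (k2 : K 0 1 = κ) (k3 : K 1 2 = κ) :
    ∀ N : ℕ, ∀ p q : ℤ, p.natAbs + q.natAbs ≤ N → (p ≠ 0 ∨ q ≠ 0) → K p q = κ := by
  have hdown : ∀ p q : ℤ, q ≠ 0 → K (p - q) q = K p q := by
    intro p q hq
    have := h1 (p - q) q (Or.inr hq)
    rw [sub_add_cancel] at this
    exact this.symm
  have hdown2 : ∀ p q : ℤ, p ≠ 0 → K p (q - 4 * p) = K p q := by
    intro p q hp
    have := h2 p (q - 4 * p) (Or.inl hp)
    rw [add_sub_cancel] at this
    exact this.symm
  intro N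
  induction N with
  | zero =>
    intro p q h hpq
    exfalso
    rcases hpq with hp | hq <;> omega
  | succ N ih =>
    intro p q h hpq
    by_cases hp : p = 0
    · subst hp
      have hq : q ≠ 0 := by simpa using hpq
      have := hH q 0 1 hq (Or.inr one_ne_zero)
      rw [mul_zero, mul_one] at this
      rw [this, k2]
    by_cases hq : q = 0
    · subst hq
      have := hH p 1 0 hp (Or.inl one_ne_zero)
      rw [mul_zero, mul_one] at this
      rw [this, k1]
    rcases lt_trichotomy (q.natAbs) (2 * p.natAbs) with hlt | heq | hgt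
    · -- reduce p
      by_cases hs : (0 < p ∧ 0 < q) ∨ (p < 0 ∧ q < 0)
      · rw [← hdown p q hq]
        exact ih _ _ (by omega) (Or.inr hq)
      · rw [← h1 p q hpq]
        exact ih _ _ (by omega) (Or.inr hq)
    · by_cases hs : q = 2 * p
      · have := hH p 1 2 hp (Or.inl one_ne_zero)
        rw [mul_one, mul_comm p 2, ← hs] at this
        rw [this, k3]
      · have hs' : q = p * (-2) := by omega
        have e1 := hH p 1 (-2) hp (Or.inl one_ne_zero)
        rw [mul_one, ← hs'] at e1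
        have e2 := h1 1 (-2) (Or.inl one_ne_zero)
        have e3 := hH (-1) 1 2 (by norm_num) (Or.inl one_ne_zero)
        norm_num at e2 e3
        rw [e1, ← e2, e3, k3]
    · -- reduce q
      by_cases hs : (0 < p ∧ 0 < q) ∨ (p < 0 ∧ q < 0)
      · rw [← hdown2 p q hp]
        exact ih _ _ (by omega) (Or.inl hp)
      · rw [← h2 p q hpq]
        exact ih _ _ (by omega) (Or.inl hp)

private theorem const_of (K : ℤ → ℤ → ℂ) (hS : Sym 0 2 K) (hW : EqC (act 0 (-1) 4 0 K) (-K))
    (h0 : K 1 0 = K 0 1) : EqC K 0 := by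
  have h1 : ∀ p q : ℤ, (p ≠ 0 ∨ q ≠ 0) → K (p + q) q = K p q := by
    intro p q hpq
    obtain ⟨c, hc⟩ := hS.2 1 1 0 1 (by norm_num) (by norm_num) (by norm_num)
    have e1 := hc 1 0 (Or.inl one_ne_zero)
    have e2 := hc p q hpq
    simp only [act] at e1 e2
    norm_num at e1 e2
    rw [e2, e1, add_zero]
  have h2 : ∀ p q : ℤ, (p ≠ 0 ∨ q ≠ 0) → K p (4 * p + q) = K p q := by
    intro p q hpq
    obtain ⟨c, hc⟩ := hS.2 1 0 4 1 (by norm_num) (by norm_num) (by norm_num)
    have e1 := hc 0 1 (Or.inr one_ne_zero)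
    have e2 := hc p q hpq
    simp only [act] at e1 e2
    norm_num at e1 e2
    rw [e2, e1, add_zero]
  obtain ⟨c, hc⟩ := hW
  have k3 : K 1 2 = K 1 0 := by
    have e1 := hc 1 0 (Or.inl one_ne_zero)
    have e2 := hc 1 2 (Or.inl one_ne_zero)
    simp only [act, Pi.neg_apply] at e1 e2
    norm_num at e1 e2
    have e3 := hS.1 4 0 1 (by norm_num) (Or.inr one_ne_zero)
    have e4 := hS.1 (-2) 1 (-2) (by norm_num) (Or.inl one_ne_zero)
    have e5 := h1 1 (-2) (Or.inl one_ne_zero)
    have e6 := hS.1 (-1) 1 2 (by norm_num) (Or.inl one_ne_zero)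
    norm_num at e3 e4 e5 e6
    have e7 : K 1 2 = -K 1 2 + c := by
      rw [← e2, e4, ← e5, e6]
    have e8 : K 1 0 = -K 1 0 + c := by
      rw [← e1, e3, h0]
    have e9 : (2 : ℂ) * K 1 2 = 2 * K 1 0 := by
      linear_combination e7 - e8
    exact mul_left_cancel₀ two_ne_zero e9
  refine ⟨K 1 0, fun p q hpq => ?_⟩
  rw [descent K (K 1 0) hS.1 h1 h2 rfl h0.symm k3 _ p q le_rfl hpq]
  simp

/-- module Bse of project WK -/
theorem hBse : StBse := by
  intro _ K hS hW h0
  refine const_of K hS ?_ h0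
  rw [show (4 : ℤ) = 2 ^ 2 by norm_num]
  exact hW

end Pool.Agent.Helper69.WK
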